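import Mathlib.Analysis.SpecialFunctions.Trigonometric.Series
import Mathlib.Analysis.Convex.SpecificFunctions.Basic
import Mathlib.Analysis.Convex.Jensen
import Mathlib.Data.Fintype.Option
import Mathlib.Algebra.Order.Chebyshev
import Mathlib.Algebra.BigOperators.Field

/-!
# The bounded differences inequality on finite product spaces
-/

set_option autoImplicit false

open Finset

namespace Pool.Agent.H16UG

/-- The average of a function on a finite set. -/
noncomputable def av {Ω : Type} [Fintype Ω] (f : Ω → ℝ) : ℝ := (∑ x, f x) / Fintype.card Ω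

section av

variable {Ω : Type} [Fintype Ω]

theorem av_mono {f g : Ω → ℝ} (h : ∀ x, f x ≤ g x) : av f ≤ av g := by
  unfold av
  gcongr with x _
  exact h x

theorem av_const [Nonempty Ω] (c : ℝ) : av (fun _ : Ω => c) = c := by
  unfold av
  rw [sum_const, card_univ, nsmul_eq_mul]
  have : (Fintype.card Ω : ℝ) ≠ 0 := Nat.cast_ne_zero.2 Fintype.card_ne_zero
  field_simp

theorem av_equiv {Ω' : Type} [Fintype Ω'] (e : Ω ≃ Ω') (f : Ω' → ℝ) :
    av (fun x => f (e x)) = av f := by
  unfold av
  rw [Fintype.card_congr e, Equiv.sum_comp e f]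

theorem av_prod {A B : Type} [Fintype A] [Fintype B] (f : A × B → ℝ) :
    av f = av fun a => av fun b => f (a, b) := by
  unfold av
  rw [Fintype.sum_prod_type, Fintype.card_prod, ← sum_div, div_div]
  push_cast
  ring_nf

theorem av_mul (c : ℝ) (f : Ω → ℝ) : av (fun x => c * f x) = c * av f := by
  unfold av
  rw [← mul_sum, mul_div_assoc]

theorem av_sub (f g : Ω → ℝ) : av (fun x => f x - g x) = av f - av g := by
  unfold av
  rw [sum_sub_distrib, sub_div]

theorem card_mul_av [Nonempty Ω] (f : Ω → ℝ) : (Fintype.card Ω : ℝ) * av f = ∑ x, f x := by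
  unfold av
  have : (Fintype.card Ω : ℝ) ≠ 0 := Nat.cast_ne_zero.2 Fintype.card_ne_zero
  field_simp

/-- Cauchy-Schwarz. -/
theorem sq_av_le [Nonempty Ω] (f : Ω → ℝ) : av f ^ 2 ≤ av (fun x => f x ^ 2) := by
  have h1 := sq_sum_le_card_mul_sum_sq (s := (univ : Finset Ω)) (f := f)
  rw [card_univ] at h1
  unfold av
  have hc : (0 : ℝ) < Fintype.card Ω := Nat.cast_pos.2 Fintype.card_pos
  rw [div_pow, div_le_div_iff₀ (by positivity) hc]
  nlinarith [hc]

end av

/-- One variable. -/
theorem hoeff {A : Type} [Fintype A] [Nonempty A] (g : A → ℝ) (c l : ℝ)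
    (hg : ∀ a b, |g a - g b| ≤ c) :
    av (fun a => Real.exp (l * (g a - av g))) ≤ Real.exp (l ^ 2 * c ^ 2 / 2) := by
  have hc : (0 : ℝ) < Fintype.card A := Nat.cast_pos.2 Fintype.card_pos
  have h1 : ∀ a, Real.exp (l * (g a - av g)) ≤ av fun b => Real.exp (l * (g a - g b)) := by
    intro a
    have h2 := convexOn_exp.map_sum_le (t := (univ : Finset A))
      (w := fun _ => 1 / (Fintype.card A : ℝ)) (p := fun b => l * (g a - g b))
      (fun _ _ => by positivity) (by
        rw [sum_const, card_univ, nsmul_eq_mul]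
        field_simp) (fun _ _ => Set.mem_univ _)
    have h3 : l * (g a - av g) = ∑ b : A, (1 / (Fintype.card A : ℝ)) • (l * (g a - g b)) := by
      simp only [smul_eq_mul]
      rw [← mul_sum, ← mul_sum, sum_sub_distrib, sum_const, card_univ, nsmul_eq_mul]
      unfold av
      field_simp
    rw [h3]
    refine h2.trans (le_of_eq ?_)
    simp only [smul_eq_mul]
    unfold av
    rw [← mul_sum]
    ring
  refine (av_mono h1).trans ?_
  have h4 : ∑ a : A, ∑ b : A, Real.exp (l * (g a - g b)) ≤
      (Fintype.card A : ℝ) ^ 2 * Real.exp (l ^ 2 * c ^ 2 / 2) := by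
    have h5 : ∑ a : A, ∑ b : A, Real.exp (l * (g a - g b)) =
        ∑ a : A, ∑ b : A, Real.exp (-(l * (g a - g b))) := by
      rw [sum_comm]
      refine sum_congr rfl fun a _ => sum_congr rfl fun b _ => ?_
      congr 1
      ring
    have h6 : ∑ a : A, ∑ b : A, Real.exp (l * (g a - g b)) =
        ∑ a : A, ∑ b : A, Real.cosh (l * (g a - g b)) := by
      have h7 : ∑ a : A, ∑ b : A, Real.cosh (l * (g a - g b)) =
          (∑ a : A, ∑ b : A, Real.exp (l * (g a - g b)) +
            ∑ a : A, ∑ b : A, Real.exp (-(l * (g a - g b)))) / 2 := by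
        rw [← sum_add_distrib, sum_div]
        refine sum_congr rfl fun a _ => ?_
        rw [← sum_add_distrib, sum_div]
        refine sum_congr rfl fun b _ => ?_
        exact Real.cosh_eq _
      rw [h7, ← h5]
      ring
    rw [h6]
    have h8 : ∀ a b : A, Real.cosh (l * (g a - g b)) ≤ Real.exp (l ^ 2 * c ^ 2 / 2) := by
      intro a b
      refine (Real.cosh_le_exp_half_sq _).trans (Real.exp_le_exp.2 ?_)
      have h9 : (g a - g b) ^ 2 ≤ c ^ 2 := by
        rw [← sq_abs (g a - g b)]
        exact pow_le_pow_left₀ (abs_nonneg _) (hg a b) 2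
      rw [mul_pow]
      have := mul_le_mul_of_nonneg_left h9 (sq_nonneg l)
      linarith
    calc _ ≤ ∑ _a : A, ∑ _b : A, Real.exp (l ^ 2 * c ^ 2 / 2) :=
          sum_le_sum fun a _ => sum_le_sum fun b _ => h8 a b
      _ = _ := by
        rw [sum_const, sum_const, card_univ, nsmul_eq_mul, nsmul_eq_mul]
        ring
  unfold av
  rw [← sum_div, div_div, div_le_iff₀ (by positivity)]
  refine h4.trans (le_of_eq (by ring))

/-- Changes of one coordinate change `f` by at most `c`. -/
def BD {ι A : Type} (f : (ι → A) → ℝ) (c : ℝ) : Prop :=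
  ∀ (i : ι) (x y : ι → A), (∀ j, j ≠ i → x j = y j) → |f x - f y| ≤ c

/-- The exponential moments under bounded differences. -/
theorem mgf (A : Type) [Fintype A] [Nonempty A] (c l : ℝ) (ι : Type) [Fintype ι] [Fintype (ι → A)] :
    ∀ f : (ι → A) → ℝ, BD f c →
      av (fun x => Real.exp (l * (f x - av f))) ≤
        Real.exp (l ^ 2 * c ^ 2 / 2 * (Fintype.card ι : ℝ)) := by
  classical
  have key := Fintype.induction_empty_option (P := fun (ι : Type) (_ : Fintype ι) =>
    ∀ (_ : Fintype (ι → A)) (f : (ι → A) → ℝ), BD f c →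
      av (fun x => Real.exp (l * (f x - av f))) ≤
        Real.exp (l ^ 2 * c ^ 2 / 2 * (Fintype.card ι : ℝ))) ?_ ?_ ?_
  · exact key ι _
  · intro α β _ e hα _ f hf
    let _ : Fintype α := Fintype.ofEquiv β e.symm
    have hα' := hα inferInstance (fun x => f (fun b => x (e.symm b))) (by
      intro i x y hxy
      refine hf (e i) _ _ fun j hj => hxy _ fun h => hj ?_
      rw [← h, Equiv.apply_symm_apply])
    have h1 : av (fun x : α → A => f (fun b => x (e.symm b))) = av f :=
      av_equiv (Equiv.arrowCongr e (Equiv.refl A)) f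
    rw [h1] at hα'
    have h2 : av (fun x : α → A => Real.exp (l * (f (fun b => x (e.symm b)) - av f))) =
        av (fun x => Real.exp (l * (f x - av f))) :=
      av_equiv (Equiv.arrowCongr e (Equiv.refl A)) (fun x => Real.exp (l * (f x - av f)))
    rw [h2] at hα'
    refine hα'.trans (le_of_eq ?_)
    congr 3
    exact Fintype.card_congr e
  · intro _ f _
    have h1 : ∀ x, f x = av f := by
      intro x
      have h2 : f = fun _ => f x := funext fun y => by
        rw [Subsingleton.elim y x]
      rw [h2, av_const]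
    have h3 : (fun x => Real.exp (l * (f x - av f))) = fun _ => 1 := by
      funext x
      rw [← h1 x]
      simp
    rw [h3, av_const]
    simp
  · intro α _ ih _ f hf
    have e := Equiv.piOptionEquivProd (α := α) (β := fun _ => A)
    obtain ⟨cons, hcons⟩ : ∃ cons : A → (α → A) → (Option α → A),
        cons = fun a x o => Option.casesOn o a x := ⟨_, rfl⟩
    have hav : ∀ g : (Option α → A) → ℝ, av g = av fun a => av fun x => g (cons a x) := by
      intro g
      rw [← av_equiv (Equiv.piOptionEquivProd (α := α) (β := fun _ => A)).symm g, av_prod]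
      rw [hcons]
      rfl
    have hb : ∀ a, BD (fun x => f (cons a x)) c := by
      intro a i x y hxy
      refine hf (some i) _ _ fun j hj => ?_
      rw [hcons]
      cases j with
      | none => rfl
      | some j => exact hxy j fun h => hj (congrArg some h)
    obtain ⟨g, hg⟩ : ∃ g : A → ℝ, g = fun a => av fun x => f (cons a x) := ⟨_, rfl⟩
    have hgf : av f = av g := by rw [hg]; exact hav f
    have hgd : ∀ a b, |g a - g b| ≤ c := by
      intro a b
      have h1 : g a - g b = av fun x => f (cons a x) - f (cons b x) := by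
        rw [av_sub, hg]
      have h2 : ∀ x, |f (cons a x) - f (cons b x)| ≤ c := by
        intro x
        refine hf none _ _ fun j hj => ?_
        rw [hcons]
        cases j with
        | none => exact absurd rfl hj
        | some j => rfl
      rw [h1, abs_le]
      constructor
      · rw [← av_const (Ω := α → A) (-c)]
        exact av_mono fun x => (abs_le.1 (h2 x)).1
      · refine (av_mono fun x => (abs_le.1 (h2 x)).2).trans (le_of_eq (av_const c))
    rw [hav]
    have h5 : ∀ a, (av fun x => Real.exp (l * (f (cons a x) - av f))) ≤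
        Real.exp (l ^ 2 * c ^ 2 / 2 * (Fintype.card α : ℝ)) * Real.exp (l * (g a - av g)) := by
      intro a
      have h6 := ih inferInstance (fun x => f (cons a x)) (hb a)
      have h7 : (fun x => Real.exp (l * (f (cons a x) - av f))) =
          fun x => Real.exp (l * (g a - av g)) *
            Real.exp (l * (f (cons a x) - av fun x => f (cons a x))) := by
        funext x
        rw [← Real.exp_add, hgf]
        congr 1
        rw [hg]
        ring
      rw [h7, av_mul, mul_comm]
      exact mul_le_mul_of_nonneg_right h6 (Real.exp_pos _).le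
    refine (av_mono h5).trans ?_
    rw [av_mul]
    refine (mul_le_mul_of_nonneg_left (hoeff g c l hgd) (Real.exp_pos _).le).trans (le_of_eq ?_)
    rw [← Real.exp_add, Fintype.card_option]
    congr 1
    push_cast
    ring

/-- The bounded differences inequality, with the parameter `l`. -/
theorem tail {A : Type} [Fintype A] [Nonempty A] {ι : Type} [Fintype ι] [DecidableEq ι]
    {c l s : ℝ} (hl : 0 ≤ l) {f : (ι → A) → ℝ} (hf : BD f c) (B : Finset (ι → A))
    (hB : ∀ x ∈ B, av f + s ≤ f x) :
    (B.card : ℝ) ≤ (Fintype.card (ι → A) : ℝ) *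
      Real.exp (l ^ 2 * c ^ 2 / 2 * (Fintype.card ι : ℝ) - l * s) := by
  have h1 := mgf A c l ι f hf
  have h2 : (B.card : ℝ) * Real.exp (l * s) ≤ ∑ x, Real.exp (l * (f x - av f)) := by
    calc (B.card : ℝ) * Real.exp (l * s) = ∑ _x ∈ B, Real.exp (l * s) := by
          rw [sum_const, nsmul_eq_mul]
      _ ≤ ∑ x ∈ B, Real.exp (l * (f x - av f)) := by
          refine sum_le_sum fun x hx => Real.exp_le_exp.2 (mul_le_mul_of_nonneg_left ?_ hl)
          have := hB x hx
          linarith
      _ ≤ _ := sum_le_sum_of_subset_of_nonneg (subset_univ B) fun _ _ _ => (Real.exp_pos _).le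
  rw [← card_mul_av] at h2
  have h3 : (B.card : ℝ) * Real.exp (l * s) ≤ (Fintype.card (ι → A) : ℝ) *
      Real.exp (l ^ 2 * c ^ 2 / 2 * (Fintype.card ι : ℝ)) :=
    h2.trans (mul_le_mul_of_nonneg_left h1 (Nat.cast_nonneg _))
  rw [Real.exp_sub, ← mul_div_assoc, le_div_iff₀ (Real.exp_pos _)]
  exact h3

end Pool.Agent.H16UG
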