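import Pool.Agent.H16UG.Opt

/-!
# The lower bound for decomposable circuits
-/

set_option autoImplicit false

open Finset

namespace Pool.Agent.H16UG

open Pool.Agent.U20.DN

variable {Γ : Type} [AddCommGroup Γ] [Fintype Γ] [DecidableEq Γ]

/-- From the bound for tuples to the number of gates. -/
theorem gate_bound {n t : ℕ} {η : ℝ} (hη : 0 < η) (ht : 1 ≤ t) (ht2 : (t : ℝ) ≤ 387 / η ^ 4)
    (hy2 : 2 ≤ η ^ 2 * n / (16 * t)) {μ s : ℕ}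
    (h : ⌊Real.exp (η ^ 2 * n / (16 * t))⌋₊ ≤ (2 ^ μ * s ^ (2 * t)) ^ t) :
    Real.exp (η ^ 14 * n / 2 ^ 32) ≤ 2 ^ μ * (s : ℝ) := by
  have ht0' : (0 : ℝ) < t := by exact_mod_cast ht
  obtain ⟨y, hy⟩ : ∃ y, y = η ^ 2 * n / (16 * t) := ⟨_, rfl⟩
  rw [← hy] at h hy2
  obtain ⟨s', hs⟩ : ∃ s' : ℝ, s' = 2 ^ μ * (s : ℝ) := ⟨_, rfl⟩
  rw [← hs]
  have hs0 : 0 ≤ s' := by rw [hs]; positivity
  have h1 : Real.exp (y / 2) ≤ s' ^ (2 * t * t) := by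
    refine (exp_le_floor hy2).trans ?_
    have h2 : (⌊Real.exp y⌋₊ : ℝ) ≤ (2 ^ μ * (s : ℝ) ^ (2 * t)) ^ t := by exact_mod_cast h
    refine h2.trans ?_
    rw [pow_mul s']
    refine pow_le_pow_left₀ (by positivity) ?_ t
    rw [hs, mul_pow, ← pow_mul]
    refine mul_le_mul_of_nonneg_right ?_ (by positivity)
    refine pow_le_pow_right₀ (by norm_num) ?_
    exact Nat.le_mul_of_pos_right _ (by omega)
  have h2 : Real.exp (η ^ 14 * n / 2 ^ 32) ^ (2 * t * t) ≤ Real.exp (y / 2) := by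
    rw [← Real.exp_nat_mul, Real.exp_le_exp, hy]
    push_cast
    have h3 : (t : ℝ) ^ 3 ≤ (387 / η ^ 4) ^ 3 := pow_le_pow_left₀ ht0'.le ht2 3
    have h4 : η ^ 14 * (t : ℝ) ^ 3 * 64 ≤ 2 ^ 32 * η ^ 2 := by
      have h5 : η ^ 14 * (387 / η ^ 4) ^ 3 * 64 = 387 ^ 3 * 64 * η ^ 2 := by
        field_simp
      have h6 : η ^ 14 * (t : ℝ) ^ 3 * 64 ≤ η ^ 14 * (387 / η ^ 4) ^ 3 * 64 := by
        refine mul_le_mul_of_nonneg_right ?_ (by norm_num)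
        exact mul_le_mul_of_nonneg_left h3 (by positivity)
      rw [h5] at h6
      refine h6.trans ?_
      refine mul_le_mul_of_nonneg_right (by norm_num) (by positivity)
    have h7 : 2 * (t : ℝ) * t * (η ^ 14 * n / 2 ^ 32) =
        (η ^ 14 * (t : ℝ) ^ 3 * 64) * (n / (2 ^ 32 * (32 * t))) := by
      field_simp
      ring
    have h8 : η ^ 2 * n / (16 * t) / 2 = (2 ^ 32 * η ^ 2) * (n / (2 ^ 32 * (32 * t))) := by
      field_simp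
      ring
    rw [h7, h8]
    exact mul_le_mul_of_nonneg_right h4 (by positivity)
  have h3 := h2.trans h1
  by_contra hcon
  push Not at hcon
  have h4 := pow_lt_pow_left₀ hcon hs0 (n := 2 * t * t) (by positivity)
  linarith

/-- The lower bound. -/
theorem lower {n : ℕ} {η : ℝ} (hη : 0 < η) (hη1 : η ≤ 1) (hn : 2 ^ 14 / η ^ 6 ≤ (n : ℝ))
    {k : ℕ} (hk : (1 / (Fintype.card Γ : ℝ) + η) * ((n : ℝ) * n) ≤ k) (hk2 : k ≤ n ^ 2)
    (μ : ℕ) (R : Type) [Fintype R] [Nonempty R] (I : R → Type) [∀ ρ, Fintype (I ρ)]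
    (G : ∀ ρ, I ρ → Gate (Fin n × Fin n) (Equiv.Perm Γ) (I ρ)) (r : ∀ ρ, I ρ)
    (hd : ∀ ρ, Decomposable (G ρ))
    (hno : ∀ ρ x, Linear x → ValueAtMost (1 / (Fintype.card Γ : ℝ) + η) x →
      ¬ Acc (G ρ) x (r ρ))
    (hyes : ∀ x, Linear x → Optimum k x →
      Nat.card R ≤ 2 ^ μ * Nat.card {ρ // Acc (G ρ) x (r ρ)}) :
    ∃ ρ, Real.exp (η ^ 14 * n / 2 ^ 32) ≤ 2 ^ μ * (Fintype.card (I ρ) : ℝ) := by
  classical
  obtain ⟨w, hw⟩ := exists_base (Γ := Γ) hη hη1 hn hk hk2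
  obtain ⟨θ, t, hθ0, ht0, hn1, hE, ht2, hy2, hmean⟩ := params hη hη1 hn
  obtain ⟨ρ, hρ⟩ := rand_dnnf μ R I G r hd hθ0 hE
    (U := Fin n ⊕ Fin n → Γ) (zg w : (Fin n ⊕ Fin n → Γ) → Fin n × Fin n → Equiv.Perm Γ)
    univ (η := 0) (by simp)
    (fun A _ => hyes _ (zg_linear w (fun _ => ()) (fun _ => A)) (hw ▸ optimum_zg w A))
    (N := ⌊Real.exp (η ^ 2 * n / (16 * t))⌋₊) (by
      intro ρ p hp
      obtain ⟨B, hB1, hB2⟩ := few_mix (Γ := Γ) w hη hn1 ht0 hmean p hp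
      exact ⟨B, fun b hb => hB1 b fun hv => hno ρ _ (zg_linear w p b) hv hb, hB2⟩)
  exact ⟨ρ, gate_bound hη ht0 ht2 hy2 (by rwa [add_zero] at hρ)⟩

end Pool.Agent.H16UG
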