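import Mathlib.Data.Fintype.BigOperators
import Mathlib.Algebra.Order.Chebyshev
import Mathlib.Algebra.BigOperators.Field
import Mathlib.Data.Real.Basic
import Mathlib.Tactic.Linarith
import Mathlib.Tactic.Ring
import Mathlib.Tactic.FieldSimp
import Mathlib.Tactic.Positivity
import Mathlib.Tactic.Abel

/-!
# Games whose constraints are shifts of a finite abelian group: counting four-cycles
-/

set_option autoImplicit false

open Finset

namespace Pool.Agent.H16UG

variable {G : Type} [AddCommGroup G] [Fintype G] [DecidableEq G]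

/-- The indicator of `0` minus its mean. -/
noncomputable def h (a : G) : ℝ := (if a = 0 then 1 else 0) - 1 / (Fintype.card G : ℝ)

omit [DecidableEq G] in
theorem card_pos' : (0 : ℝ) < Fintype.card G := Nat.cast_pos.2 Fintype.card_pos

theorem h_le_one (a : G) : h a ≤ 1 := by
  have h1 : (0 : ℝ) < 1 / (Fintype.card G : ℝ) := one_div_pos.2 card_pos'
  unfold h
  split_ifs <;> linarith

theorem h_sub_le (a b : G) : h a - h b ≤ 1 := by
  unfold h
  split_ifs <;> linarith

theorem sum_h : ∑ a : G, h a = 0 := by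
  unfold h
  rw [sum_sub_distrib, sum_ite_eq' univ (0 : G), if_pos (mem_univ _), sum_const, card_univ,
    nsmul_eq_mul]
  have := card_pos' (G := G)
  field_simp
  ring

theorem sum_h_add (a : G) : ∑ g : G, h (a + g) = 0 := by
  rw [← sum_h (G := G)]
  exact Equiv.sum_comp (Equiv.addLeft a) h

theorem sum_h_sub (a : G) : ∑ g : G, h (a - g) = 0 := by
  rw [← sum_h (G := G)]
  exact Equiv.sum_comp (Equiv.subLeft a) h

theorem conv_h (a b : G) : ∑ c : G, h (a - c) * h (b - c) = h (a - b) := by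
  have h1 : ∀ c : G, h (a - c) * h (b - c) =
      (if a = c then h (b - c) else 0) - 1 / (Fintype.card G : ℝ) * h (b - c) := by
    intro c
    have h2 : h (a - c) = (if a = c then 1 else 0) - 1 / (Fintype.card G : ℝ) := by
      unfold h
      simp only [sub_eq_zero]
    rw [h2, sub_mul]
    congr 1
    split_ifs <;> ring
  rw [sum_congr rfl fun c _ => h1 c, sum_sub_distrib, sum_ite_eq univ a, if_pos (mem_univ _),
    ← mul_sum, sum_h_sub, mul_zero, sub_zero]
  unfold h
  congr 1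
  have : b - a = 0 ↔ a - b = 0 := by
    rw [sub_eq_zero, sub_eq_zero]
    exact eq_comm
  simp only [this]

theorem sq_le {I : Type} [Fintype I] (y : I → G) (d : G) :
    (∑ i, h (y i - d)) ^ 2 ≤ ∑ i, ∑ j, h (y i - y j) := by
  have h1 : ∑ c : G, (∑ i, h (y i - c)) ^ 2 = ∑ i, ∑ j, h (y i - y j) := by
    calc ∑ c : G, (∑ i, h (y i - c)) ^ 2 = ∑ c : G, ∑ i, ∑ j, h (y i - c) * h (y j - c) := by
          refine sum_congr rfl fun c _ => ?_
          rw [sq, sum_mul_sum]
      _ = ∑ i, ∑ j, ∑ c : G, h (y i - c) * h (y j - c) := by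
          rw [sum_comm]
          exact sum_congr rfl fun i _ => sum_comm
      _ = _ := sum_congr rfl fun i _ => sum_congr rfl fun j _ => conv_h _ _
  rw [← h1]
  exact single_le_sum (f := fun c : G => (∑ i, h (y i - c)) ^ 2) (fun c _ => sq_nonneg _)
    (mem_univ d)

/-- The excess of a labeling to the fourth power is at most the excess of four-cycles. -/
theorem four {n : ℕ} (x : Fin n → Fin n → G) (b b' : Fin n → G) :
    (∑ u, ∑ v, h (b u + x u v - b' v)) ^ 4 ≤
      (n : ℝ) ^ 4 * ∑ u, ∑ u', ∑ v, ∑ v', h ((x u v - x u' v) - (x u v' - x u' v')) := by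
  obtain ⟨S, hS⟩ : ∃ S, S = ∑ u, ∑ v, h (b u + x u v - b' v) := ⟨_, rfl⟩
  obtain ⟨T, hT⟩ : ∃ T, T = ∑ u, ∑ u', ∑ v, ∑ v', h ((x u v - x u' v) - (x u v' - x u' v')) :=
    ⟨_, rfl⟩
  obtain ⟨Q, hQ⟩ : ∃ Q, Q = ∑ u, ∑ u', ∑ v, h ((x u v - x u' v) - (b u' - b u)) := ⟨_, rfl⟩
  rw [← hS, ← hT]
  have hn : (0 : ℝ) ≤ n := Nat.cast_nonneg n
  have h1 : S ^ 2 ≤ n * Q := by
    rw [hS, sum_comm]
    refine (sq_sum_le_card_mul_sum_sq).trans ?_
    rw [card_univ, Fintype.card_fin]
    refine mul_le_mul_of_nonneg_left ?_ hn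
    have h2 : ∀ v, (∑ u, h (b u + x u v - b' v)) ^ 2 ≤
        ∑ u, ∑ u', h ((x u v - x u' v) - (b u' - b u)) := by
      intro v
      refine (sq_le (fun u => b u + x u v) (b' v)).trans (le_of_eq ?_)
      refine sum_congr rfl fun u _ => sum_congr rfl fun u' _ => ?_
      congr 1
      abel
    refine (sum_le_sum fun v _ => h2 v).trans (le_of_eq ?_)
    rw [hQ, sum_comm]
    exact sum_congr rfl fun u _ => sum_comm
  have h3 : Q ^ 2 ≤ (n : ℝ) ^ 2 * T := by
    rw [hQ]
    refine (sq_sum_le_card_mul_sum_sq).trans ?_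
    rw [card_univ, Fintype.card_fin, sq (n : ℝ), mul_assoc]
    refine mul_le_mul_of_nonneg_left ?_ hn
    rw [hT, mul_sum]
    refine sum_le_sum fun u _ => ?_
    refine (sq_sum_le_card_mul_sum_sq).trans ?_
    rw [card_univ, Fintype.card_fin]
    refine mul_le_mul_of_nonneg_left (sum_le_sum fun u' _ => ?_) hn
    exact sq_le (fun v => x u v - x u' v) (b u' - b u)
  calc S ^ 4 = (S ^ 2) ^ 2 := by ring
    _ ≤ (n * Q) ^ 2 := pow_le_pow_left₀ (sq_nonneg S) h1 2
    _ = (n : ℝ) ^ 2 * Q ^ 2 := by ring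
    _ ≤ (n : ℝ) ^ 2 * ((n : ℝ) ^ 2 * T) := mul_le_mul_of_nonneg_left h3 (by positivity)
    _ = _ := by ring

end Pool.Agent.H16UG
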