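import Mathlib.SetTheory.Cardinal.Finite
import Mathlib.Algebra.Group.Defs
import Mathlib.Logic.Equiv.Defs
import Mathlib.Data.Real.Basic

/-!
# Unique games on complete bipartite graphs
-/

set_option autoImplicit false

namespace Pool.Agent.H16UG

variable {n : ℕ} {Γ : Type}

/-- The unique game `x` on `n + n` vertices with the set of labels `Γ`: each pair `e = (u, v)` of a
left vertex `u` and a right vertex `v` is an edge with the constraint `x e`, a permutation of the
labels. The labeling `L` of the left vertices and `R` of the right vertices satisfies `e`. -/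
def Sat (x : Fin n × Fin n → Equiv.Perm Γ) (L R : Fin n → Γ) (e : Fin n × Fin n) : Prop :=
  x e (L e.1) = R e.2

/-- Some labeling satisfies all edges. -/
def ValueOne (x : Fin n × Fin n → Equiv.Perm Γ) : Prop :=
  ∃ L R : Fin n → Γ, ∀ e, Sat x L R e

/-- Some labeling satisfies `k` edges, and none satisfies more. -/
def Optimum (k : ℕ) (x : Fin n × Fin n → Equiv.Perm Γ) : Prop :=
  (∃ L R : Fin n → Γ, Nat.card {e // Sat x L R e} = k) ∧
    ∀ L R : Fin n → Γ, Nat.card {e // Sat x L R e} ≤ k

/-- Each labeling satisfies at most `δ n ^ 2` edges. -/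
def ValueAtMost (δ : ℝ) (x : Fin n × Fin n → Equiv.Perm Γ) : Prop :=
  ∀ L R : Fin n → Γ, (Nat.card {e // Sat x L R e} : ℝ) ≤ δ * ((n : ℝ) * n)

/-- The constraints are equations `R v - L u = c` in the abelian group `Γ`. -/
def Linear [AddCommGroup Γ] (x : Fin n × Fin n → Equiv.Perm Γ) : Prop :=
  ∀ e, ∃ c : Γ, ∀ a, x e a = a + c

end Pool.Agent.H16UG
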