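import Pool.Agent.H16UG.Mean

/-!
# Mixtures of satisfiable shift games have small value
-/

set_option autoImplicit false

open Finset

namespace Pool.Agent.H16UG

variable {G : Type} [AddCommGroup G] [Fintype G] [DecidableEq G]

/-- The number of edges satisfied by the labeling `bb`, minus its mean. -/
noncomputable def exc {n t : ℕ} (κ : Fin n → Fin n → Fin t) (w : Fin n → Fin n → G)
    (F : Co n t → G)
    (bb : (Fin n → G) × (Fin n → G)) : ℝ :=
  ∑ u, ∑ v, h (bb.1 u + mx κ w F u v - bb.2 v)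

/-- The maximum over all labelings. -/
noncomputable def mex {n t : ℕ} (κ : Fin n → Fin n → Fin t) (w : Fin n → Fin n → G)
    (F : Co n t → G) : ℝ :=
  univ.sup' ⟨((fun _ => 0), fun _ => 0), mem_univ _⟩ (exc κ w F)

theorem exc_le_mex {n t : ℕ} (κ : Fin n → Fin n → Fin t) (w : Fin n → Fin n → G)
    (F : Co n t → G)
    (bb : (Fin n → G) × (Fin n → G)) : exc κ w F bb ≤ mex κ w F :=
  le_sup' (exc κ w F) (mem_univ bb)

theorem exc_le {n t : ℕ} (κ : Fin n → Fin n → Fin t) (w : Fin n → Fin n → G) (i : Co n t) (x y : Co n t → G)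
    (hxy : ∀ j, j ≠ i → x j = y j) (bb : (Fin n → G) × (Fin n → G)) :
    exc κ w x bb ≤ exc κ w y bb + n := by
  have h1 : ∃ S : Fin n → Fin n → ℝ, ∑ u, ∑ v, S u v ≤ n ∧
      ∀ u v, h (bb.1 u + mx κ w x u v - bb.2 v) - h (bb.1 u + mx κ w y u v - bb.2 v) ≤ S u v := by
    rcases i with ⟨k, u0 | v0⟩
    · refine ⟨fun u _ => if u = u0 then 1 else 0, ?_, fun u v => ?_⟩
      · simp only [sum_const, card_univ, Fintype.card_fin, nsmul_eq_mul, ← mul_sum,
          sum_ite_eq', mem_univ, if_true, mul_one, le_refl]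
      · dsimp only
        split_ifs with hu
        · exact h_sub_le _ _
        · have h2 : mx κ w x u v = mx κ w y u v := by
            unfold mx
            rw [hxy (κ u v, Sum.inr v) (by simp), hxy (κ u v, Sum.inl u) (by simp [hu])]
          rw [h2, sub_self]
    · refine ⟨fun _ v => if v = v0 then 1 else 0, ?_, fun u v => ?_⟩
      · simp only [sum_const, card_univ, Fintype.card_fin, nsmul_eq_mul,
          sum_ite_eq', mem_univ, if_true, mul_one, le_refl]
      · dsimp only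
        split_ifs with hv
        · exact h_sub_le _ _
        · have h2 : mx κ w x u v = mx κ w y u v := by
            unfold mx
            rw [hxy (κ u v, Sum.inr v) (by simp [hv]), hxy (κ u v, Sum.inl u) (by simp)]
          rw [h2, sub_self]
  obtain ⟨S, hS1, hS2⟩ := h1
  have h3 : exc κ w x bb - exc κ w y bb ≤ ∑ u, ∑ v, S u v := by
    unfold exc
    rw [← sum_sub_distrib]
    refine sum_le_sum fun u _ => ?_
    rw [← sum_sub_distrib]
    exact sum_le_sum fun v _ => hS2 u v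
  linarith

theorem mex_bd {n t : ℕ} (κ : Fin n → Fin n → Fin t) (w : Fin n → Fin n → G) :
    BD (mex κ w : (Co n t → G) → ℝ) n := by
  have h1 : ∀ (i : Co n t) (x y : Co n t → G), (∀ j, j ≠ i → x j = y j) →
      mex κ w x ≤ mex κ w y + n := by
    intro i x y hxy
    refine sup'_le _ _ fun bb _ => ?_
    have := exc_le κ w i x y hxy bb
    have := exc_le_mex κ w y bb
    linarith
  intro i x y hxy
  rw [abs_le]
  have h2 := h1 i x y hxy
  have h3 := h1 i y x fun j hj => (hxy j hj).symm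
  constructor <;> linarith

/-- The mean of the maximum. -/
theorem av_mex {n t : ℕ} (κ : Fin n → Fin n → Fin t) (w : Fin n → Fin n → G) (B : ℕ)
    (hB : ∀ k, (univ.filter (fun e : Fin n × Fin n => κ e.1 e.2 = k)).card ≤ B) {ρ : ℝ}
    (hρ : 0 ≤ ρ) (h1 : (n : ℝ) ^ 2 * B + 2 * (n : ℝ) ^ 3 ≤ (n : ℝ) ^ 4 * ρ ^ 4) :
    av (mex κ w : (Co n t → G) → ℝ) ≤ (n : ℝ) ^ 2 * ρ := by
  have h2 : ∀ F : Co n t → G, mex κ w F ^ 4 ≤
      (n : ℝ) ^ 4 * ∑ u, ∑ u', ∑ v, ∑ v', h (cyc κ w u u' v v' F) := by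
    intro F
    obtain ⟨bb, -, hbb⟩ := exists_mem_eq_sup' (s := univ)
      (⟨((fun _ => 0), fun _ => 0), mem_univ _⟩ :
        (univ : Finset ((Fin n → G) × (Fin n → G))).Nonempty) (exc κ w F)
    have h3 : mex κ w F = exc κ w F bb := hbb
    rw [h3]
    exact four (mx κ w F) bb.1 bb.2
  have hZ : (0 : ℝ) < Fintype.card (Co n t → G) := Nat.cast_pos.2 Fintype.card_pos
  have h3 : av (mex κ w : (Co n t → G) → ℝ) ^ 4 ≤ ((n : ℝ) ^ 2 * ρ) ^ 4 := by
    calc av (mex κ w : (Co n t → G) → ℝ) ^ 4 = (av (mex κ w : (Co n t → G) → ℝ) ^ 2) ^ 2 := by ring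
      _ ≤ (av fun F : Co n t → G => mex κ w F ^ 2) ^ 2 :=
          pow_le_pow_left₀ (sq_nonneg _) (sq_av_le _) 2
      _ ≤ av fun F : Co n t → G => (mex κ w F ^ 2) ^ 2 := sq_av_le _
      _ = av fun F : Co n t → G => mex κ w F ^ 4 := by
          congr 1
          funext F
          ring
      _ ≤ av fun F : Co n t → G =>
          (n : ℝ) ^ 4 * ∑ u, ∑ u', ∑ v, ∑ v', h (cyc κ w u u' v v' F) := av_mono h2
      _ = (n : ℝ) ^ 4 * av fun F : Co n t → G =>
          ∑ u, ∑ u', ∑ v, ∑ v', h (cyc κ w u u' v v' F) := av_mul _ _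
      _ ≤ (n : ℝ) ^ 4 * ((n : ℝ) ^ 2 * B + 2 * (n : ℝ) ^ 3) := by
          refine mul_le_mul_of_nonneg_left ?_ (by positivity)
          unfold av
          rw [div_le_iff₀ hZ, mul_comm]
          exact sum_cyc_le κ w B hB
      _ ≤ (n : ℝ) ^ 4 * ((n : ℝ) ^ 4 * ρ ^ 4) := mul_le_mul_of_nonneg_left h1 (by positivity)
      _ = _ := by ring
  by_contra hcon
  push Not at hcon
  have h4 := pow_lt_pow_left₀ hcon (by positivity) (n := 4) (by norm_num)
  linarith

/-- Few mixtures have a labeling which satisfies many edges more than the mean. -/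
theorem few {n t : ℕ} (hn : 1 ≤ n) (ht : 1 ≤ t) (κ : Fin n → Fin n → Fin t)
    (w : Fin n → Fin n → G) (B : ℕ)
    (hB : ∀ k, (univ.filter (fun e : Fin n × Fin n => κ e.1 e.2 = k)).card ≤ B) {η : ℝ}
    (hη : 0 < η) (h1 : (n : ℝ) ^ 2 * B + 2 * (n : ℝ) ^ 3 ≤ (n : ℝ) ^ 4 * (η / 2) ^ 4)
    (S : Finset (Co n t → G)) (hS : ∀ F ∈ S, η * (n : ℝ) ^ 2 ≤ mex κ w F) :
    (S.card : ℝ) * Real.exp (η ^ 2 * n / (16 * t)) ≤ Fintype.card (Co n t → G) := by
  have h2 := av_mex κ w B hB (by positivity) h1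
  have hn' : (0 : ℝ) < n := by exact_mod_cast hn
  have ht' : (0 : ℝ) < t := by exact_mod_cast ht
  have h3 := tail (l := η / (4 * n * t)) (s := η / 2 * (n : ℝ) ^ 2) (by positivity)
    (mex_bd κ w) S (fun F hF => by
      have := hS F hF
      linarith)
  have h4 : (η / (4 * n * t)) ^ 2 * (n : ℝ) ^ 2 / 2 * (Fintype.card (Co n t) : ℝ) -
      η / (4 * n * t) * (η / 2 * (n : ℝ) ^ 2) = -(η ^ 2 * n / (16 * t)) := by
    rw [Fintype.card_prod, Fintype.card_sum, Fintype.card_fin, Fintype.card_fin]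
    push_cast
    field_simp
    ring
  rw [h4, Real.exp_neg, ← div_eq_mul_inv, le_div_iff₀ (Real.exp_pos _)] at h3
  exact h3

end Pool.Agent.H16UG
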