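import Pool.Agent.H16UG.Defs
import Pool.Agent.H16UG.Val
import Pool.Agent.U20.DN.Engine
import Pool.Agent.U20.DN.Upper
import Mathlib.Algebra.Order.Floor.Semiring

/-!
# Decomposable circuits and unique games
-/

set_option autoImplicit false

open Finset

namespace Pool.Agent.H16UG

open Pool.Agent.U20.DN

variable {Γ : Type} [AddCommGroup Γ] [Fintype Γ] [DecidableEq Γ]

/-- The relabeling of the linear game with the shifts `w` by the labeling `a`. -/
def zg {n : ℕ} (w : Fin n × Fin n → Γ) (a : Fin n ⊕ Fin n → Γ) (e : Fin n × Fin n) :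
    Equiv.Perm Γ :=
  Equiv.addRight (a (Sum.inr e.2) - a (Sum.inl e.1) + w e)

omit [Fintype Γ] [DecidableEq Γ] in
theorem zg_linear {n : ℕ} (w : Fin n × Fin n → Γ) {U : Type} (f : Fin n × Fin n → U)
    (a : U → Fin n ⊕ Fin n → Γ) : Linear (fun e => zg w (a (f e)) e) :=
  fun e => ⟨a (f e) (Sum.inr e.2) - a (f e) (Sum.inl e.1) + w e, fun _ => rfl⟩

/-- The number of satisfied edges of a mixture. -/
theorem card_sat {n t : ℕ} (w : Fin n × Fin n → Γ) (p : Fin n × Fin n → Fin t)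
    (b : Fin t → Fin n ⊕ Fin n → Γ) (L R : Fin n → Γ) :
    (Nat.card {e // Sat (mix p (zg w) b) L R e} : ℝ) =
      exc (fun u v => p (u, v)) (fun u v => w (u, v)) (fun c => b c.1 c.2) (L, R) +
        1 / (Fintype.card Γ : ℝ) * ((n : ℝ) * n) := by
  classical
  have h1 : (Nat.card {e // Sat (mix p (zg w) b) L R e} : ℝ) = ∑ u : Fin n, ∑ v : Fin n,
      (if L u + mx (fun u v => p (u, v)) (fun u v => w (u, v)) (fun c => b c.1 c.2) u v - R v = 0
        then (1 : ℝ) else 0) := by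
    rw [Nat.card_eq_fintype_card, Fintype.card_subtype, card_filter, Nat.cast_sum,
      Fintype.sum_prod_type]
    refine sum_congr rfl fun u _ => sum_congr rfl fun v _ => ?_
    have h2 : Sat (mix p (zg w) b) L R (u, v) ↔
        L u + mx (fun u v => p (u, v)) (fun u v => w (u, v)) (fun c => b c.1 c.2) u v - R v
          = 0 := by
      rw [sub_eq_zero]
      exact Iff.rfl
    simp only [h2]
    push_cast
    rfl
  rw [h1]
  unfold exc h
  simp only [sum_sub_distrib, sum_const, card_univ, Fintype.card_fin, nsmul_eq_mul]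
  ring

theorem exp_le_floor {y : ℝ} (hy : 2 ≤ y) : Real.exp (y / 2) ≤ (⌊Real.exp y⌋₊ : ℝ) := by
  have h1 := Nat.lt_floor_add_one (Real.exp y)
  have h2 := Real.add_one_le_exp (y / 2)
  have h3 : Real.exp y = Real.exp (y / 2) ^ 2 := by
    rw [← Real.exp_nat_mul]
    congr 1
    push_cast
    ring
  nlinarith

omit [AddCommGroup Γ] [DecidableEq Γ] in
/-- The trivial circuit. -/
theorem upper (n : ℕ) :
    ∃ (I : Type) (_ : Fintype I) (G : I → Gate (Fin n × Fin n) (Equiv.Perm Γ) I) (r : I),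
      Decomposable G ∧
        Fintype.card I = Fintype.card Γ ^ (2 * n) * (2 * n ^ 2 + 1) + 1 ∧
          ∀ x, Acc G x r ↔ ValueOne x := by
  obtain ⟨φ, hφ⟩ : ∃ φ : ((Fin n → Γ) × (Fin n → Γ)) → Fin n × Fin n → Equiv.Perm Γ → Prop,
      φ = fun s e π => π (s.1 e.1) = s.2 e.2 := ⟨_, rfl⟩
  refine ⟨UI (Fin n × Fin n) ((Fin n → Γ) × (Fin n → Γ)), inferInstance, ub φ, none,
    ub_decomposable φ, ?_, fun x => ?_⟩
  · rw [card_ui, Fintype.card_prod, Fintype.card_prod, Fintype.card_fun, Fintype.card_fin]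
    ring
  · rw [ub_acc, hφ]
    constructor
    · rintro ⟨s, hs⟩
      exact ⟨s.1, s.2, hs⟩
    · rintro ⟨L, R, hs⟩
      exact ⟨(L, R), hs⟩

omit [AddCommGroup Γ] [DecidableEq Γ] in
/-- Every game has value at least `1 / |Γ|`. -/
theorem value_ge [Nonempty Γ] {n : ℕ} (hn : 1 ≤ n) {δ : ℝ} (hδ : δ < 1 / (Fintype.card Γ : ℝ))
    (x : Fin n × Fin n → Equiv.Perm Γ) : ¬ ValueAtMost δ x := by
  classical
  intro hx
  obtain ⟨a⟩ := ‹Nonempty Γ›
  have hn' : (0 : ℝ) < (n : ℝ) * n := by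
    have : (0 : ℝ) < n := by exact_mod_cast hn
    positivity
  have hc : (0 : ℝ) < Fintype.card Γ := Nat.cast_pos.2 Fintype.card_pos
  have h1 : ∑ c : Γ, (Nat.card {e // Sat x (fun _ => a) (fun _ => c) e} : ℝ) =
      (n : ℝ) * n := by
    have h2 : ∀ c : Γ, Nat.card {e // Sat x (fun _ => a) (fun _ => c) e} =
        (univ.filter (fun e => x e a = c)).card := by
      intro c
      rw [Nat.card_eq_fintype_card, Fintype.card_subtype]
      congr 1
    have h3 : ∑ c : Γ, Nat.card {e // Sat x (fun _ => a) (fun _ => c) e} = n * n := by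
      rw [sum_congr rfl fun c _ => h2 c,
        ← card_eq_sum_card_fiberwise (fun e _ => mem_univ (x e a)), card_univ,
        Fintype.card_prod, Fintype.card_fin]
    exact_mod_cast h3
  have h4 : ∑ c : Γ, (Nat.card {e // Sat x (fun _ => a) (fun _ => c) e} : ℝ) ≤
      Fintype.card Γ * (δ * ((n : ℝ) * n)) := by
    refine (sum_le_sum fun c _ => hx (fun _ => a) (fun _ => c)).trans (le_of_eq ?_)
    rw [sum_const, card_univ, nsmul_eq_mul]
  rw [h1] at h4
  rw [lt_div_iff₀ hc] at hδ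
  nlinarith

end Pool.Agent.H16UG
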