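import Pool.Agent.H16UG.Count
import Pool.Agent.H16UG.Mcd

/-!
# Mixtures of satisfiable shift games: the mean of the number of four-cycles
-/

set_option autoImplicit false

open Finset

namespace Pool.Agent.H16UG

variable {G : Type} [AddCommGroup G] [Fintype G] [DecidableEq G]

/-- The coordinates of `t` labelings of `n + n` vertices. -/
abbrev Co (n t : ℕ) : Type := Fin t × (Fin n ⊕ Fin n)

/-- The mixture of the relabelings of the game `w` by the labelings `F k`, the `k`-th one on the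
part `k`. -/
def mx {n t : ℕ} (κ : Fin n → Fin n → Fin t) (w : Fin n → Fin n → G) (F : Co n t → G)
    (u v : Fin n) : G :=
  F (κ u v, Sum.inr v) - F (κ u v, Sum.inl u) + w u v

theorem sum_shift {ι : Type} [Fintype ι] [DecidableEq ι] (D : (ι → G) → G) (i : ι)
    (hD : ∀ F g, D (F + Pi.single i g) = D F + g) : ∑ F, h (D F) = 0 := by
  have h1 : ∀ g : G, ∑ F : ι → G, h (D (F + Pi.single i g)) = ∑ F : ι → G, h (D F) := by
    intro g
    exact Equiv.sum_comp (Equiv.addRight (Pi.single i g : ι → G)) fun F => h (D F)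
  have h2 : (Fintype.card G : ℝ) * ∑ F, h (D F) = 0 := by
    calc (Fintype.card G : ℝ) * ∑ F, h (D F) = ∑ _g : G, ∑ F, h (D F) := by
          rw [sum_const, card_univ, nsmul_eq_mul]
      _ = ∑ g : G, ∑ F : ι → G, h (D (F + Pi.single i g)) :=
          sum_congr rfl fun g _ => (h1 g).symm
      _ = ∑ F : ι → G, ∑ g : G, h (D F + g) := by
          rw [sum_comm]
          exact sum_congr rfl fun F _ => sum_congr rfl fun g _ => by rw [hD]
      _ = 0 := sum_eq_zero fun F _ => sum_h_add _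
  rcases mul_eq_zero.1 h2 with h3 | h3
  · exact absurd h3 card_pos'.ne'
  · exact h3

/-- The four-cycle. -/
def cyc {n t : ℕ} (κ : Fin n → Fin n → Fin t) (w : Fin n → Fin n → G) (u u' v v' : Fin n) (F : Co n t → G) : G :=
  (mx κ w F u v - mx κ w F u' v) - (mx κ w F u v' - mx κ w F u' v')

theorem cyc_zero {n t : ℕ} (κ : Fin n → Fin n → Fin t) (w : Fin n → Fin n → G)
    {u u' v v' : Fin n} (hu : u ≠ u')
    (hv : v ≠ v') (hk : κ u v ≠ κ u' v') : ∑ F : Co n t → G, h (cyc κ w u u' v v' F) = 0 := by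
  have hu' := hu.symm
  have hv' := hv.symm
  rcases eq_or_ne (κ u v) (κ u' v) with h1 | h1
  · have h2 : κ u' v ≠ κ u' v' := h1 ▸ hk
    refine sum_shift _ (κ u' v, Sum.inl u') fun F g => ?_
    unfold cyc mx
    simp only [Pi.add_apply, Pi.single_apply, Prod.mk.injEq, Sum.inl.injEq, reduceCtorEq,
      and_false, if_false, hu, h2.symm, and_self, if_true, false_and, add_zero]
    abel
  · refine sum_shift _ (κ u v, Sum.inr v) fun F g => ?_
    unfold cyc mx
    simp only [Pi.add_apply, Pi.single_apply, Prod.mk.injEq, Sum.inr.injEq, reduceCtorEq,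
      and_false, if_false, hv', h1.symm, and_self, if_true, false_and, add_zero]
    abel

/-- The sum of the number of four-cycles. -/
theorem sum_cyc_le {n t : ℕ} (κ : Fin n → Fin n → Fin t) (w : Fin n → Fin n → G) (B : ℕ)
    (hB : ∀ k, (univ.filter (fun e : Fin n × Fin n => κ e.1 e.2 = k)).card ≤ B) :
    ∑ F : Co n t → G, ∑ u, ∑ u', ∑ v, ∑ v', h (cyc κ w u u' v v' F) ≤
      (Fintype.card (Co n t → G) : ℝ) * ((n : ℝ) ^ 2 * B + 2 * (n : ℝ) ^ 3) := by
  obtain ⟨Z, hZ⟩ : ∃ Z : ℝ, Z = Fintype.card (Co n t → G) := ⟨_, rfl⟩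
  have hZ0 : 0 ≤ Z := by rw [hZ]; positivity
  have h1 : ∀ u u' v v' : Fin n, ∑ F : Co n t → G, h (cyc κ w u u' v v' F) ≤
      Z * (((if u = u' then (1 : ℝ) else 0) + (if v = v' then (1 : ℝ) else 0)) +
        (if κ u' v' = κ u v then (1 : ℝ) else 0)) := by
    intro u u' v v'
    have h2 : ∑ F : Co n t → G, h (cyc κ w u u' v v' F) ≤ Z := by
      calc _ ≤ ∑ _F : Co n t → G, (1 : ℝ) := sum_le_sum fun F _ => h_le_one _
        _ = Z := by rw [sum_const, card_univ, nsmul_eq_mul, mul_one, hZ]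
    by_cases hu : u = u'
    · rw [if_pos hu]
      refine h2.trans (le_mul_of_one_le_right hZ0 ?_)
      split_ifs <;> norm_num
    by_cases hv : v = v'
    · rw [if_pos hv]
      refine h2.trans (le_mul_of_one_le_right hZ0 ?_)
      split_ifs <;> norm_num
    by_cases hk : κ u v = κ u' v'
    · rw [if_pos hk.symm]
      refine h2.trans (le_mul_of_one_le_right hZ0 ?_)
      split_ifs <;> norm_num
    · rw [cyc_zero κ w hu hv hk]
      refine mul_nonneg hZ0 ?_
      split_ifs <;> norm_num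
  have h3 : ∑ F : Co n t → G, ∑ u, ∑ u', ∑ v, ∑ v', h (cyc κ w u u' v v' F) =
      ∑ u, ∑ u', ∑ v, ∑ v', ∑ F : Co n t → G, h (cyc κ w u u' v v' F) := by
    rw [sum_comm]
    refine sum_congr rfl fun u _ => ?_
    rw [sum_comm]
    refine sum_congr rfl fun u' _ => ?_
    rw [sum_comm]
    refine sum_congr rfl fun v _ => ?_
    rw [sum_comm]
  rw [h3, ← hZ]
  have h4 : ∑ u : Fin n, ∑ u' : Fin n, ∑ v : Fin n, ∑ v' : Fin n,
      ((if u = u' then (1 : ℝ) else 0) + (if v = v' then (1 : ℝ) else 0)) = 2 * (n : ℝ) ^ 3 := by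
    simp only [sum_add_distrib, sum_const, card_univ, Fintype.card_fin, nsmul_eq_mul,
      sum_ite_eq, mem_univ, if_true, ← mul_sum]
    ring
  have h5 : ∑ u : Fin n, ∑ u' : Fin n, ∑ v : Fin n, ∑ v' : Fin n,
      (if κ u' v' = κ u v then (1 : ℝ) else 0) ≤ (n : ℝ) ^ 2 * B := by
    have h6 : ∀ u v : Fin n, ∑ u' : Fin n, ∑ v' : Fin n,
        (if κ u' v' = κ u v then (1 : ℝ) else 0) ≤ B := by
      intro u v
      have h7 := hB (κ u v)
      have h8 : ∑ u' : Fin n, ∑ v' : Fin n, (if κ u' v' = κ u v then (1 : ℝ) else 0) =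
          ((univ.filter (fun e : Fin n × Fin n => κ e.1 e.2 = κ u v)).card : ℝ) := by
        rw [card_filter, Nat.cast_sum, Fintype.sum_prod_type]
        exact sum_congr rfl fun u' _ => sum_congr rfl fun v' _ => by push_cast; rfl
      rw [h8]
      exact_mod_cast h7
    calc _ = ∑ u : Fin n, ∑ v : Fin n, ∑ u' : Fin n, ∑ v' : Fin n,
          (if κ u' v' = κ u v then (1 : ℝ) else 0) :=
          sum_congr rfl fun u _ => sum_comm
      _ ≤ ∑ _u : Fin n, ∑ _v : Fin n, (B : ℝ) :=
          sum_le_sum fun u _ => sum_le_sum fun v _ => h6 u v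
      _ = _ := by
          rw [sum_const, sum_const, card_univ, Fintype.card_fin, nsmul_eq_mul, nsmul_eq_mul]
          ring
  calc _ ≤ ∑ u : Fin n, ∑ u' : Fin n, ∑ v : Fin n, ∑ v' : Fin n,
        Z * (((if u = u' then (1 : ℝ) else 0) + (if v = v' then (1 : ℝ) else 0)) +
          (if κ u' v' = κ u v then (1 : ℝ) else 0)) :=
        sum_le_sum fun u _ => sum_le_sum fun u' _ => sum_le_sum fun v _ =>
          sum_le_sum fun v' _ => h1 u u' v v'
    _ = Z * (2 * (n : ℝ) ^ 3 + ∑ u : Fin n, ∑ u' : Fin n, ∑ v : Fin n, ∑ v' : Fin n,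
          (if κ u' v' = κ u v then (1 : ℝ) else 0)) := by
        rw [← h4]
        simp only [← mul_sum, ← sum_add_distrib]
    _ ≤ _ := by
        refine mul_le_mul_of_nonneg_left ?_ hZ0
        linarith

end Pool.Agent.H16UG
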