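import Pool.Agent.H16UG.Main

/-!
# Mixtures of games: parameters, and the sets of bad tuples
-/

set_option autoImplicit false

open Finset

namespace Pool.Agent.H16UG

open Pool.Agent.U20.DN

/-- The size of the parts and their number. -/
theorem params {n : ℕ} {η : ℝ} (hη : 0 < η) (hη1 : η ≤ 1) (hn : 2 ^ 14 / η ^ 6 ≤ (n : ℝ)) :
    ∃ θ t : ℕ, 1 ≤ θ ∧ 1 ≤ t ∧ 1 ≤ n ∧
      3 * Fintype.card (Fin n × Fin n) + 2 * θ ≤ θ * t ∧ (t : ℝ) ≤ 387 / η ^ 4 ∧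
      2 ≤ η ^ 2 * n / (16 * t) ∧
      (n : ℝ) ^ 2 * (2 * θ : ℕ) + 2 * (n : ℝ) ^ 3 ≤ (n : ℝ) ^ 4 * (η / 2) ^ 4 := by
  have hη6 : (0 : ℝ) < η ^ 6 := by positivity
  have hη4 : (0 : ℝ) < η ^ 4 := by positivity
  have hη2 : η ^ 2 ≤ 1 := pow_le_one₀ hη.le hη1
  have hn6 : 2 ^ 14 ≤ (n : ℝ) * η ^ 6 := by rwa [div_le_iff₀ hη6] at hn
  have hn4 : 2 ^ 14 ≤ (n : ℝ) * η ^ 4 := by
    refine hn6.trans ?_
    refine mul_le_mul_of_nonneg_left ?_ (Nat.cast_nonneg n)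
    calc η ^ 6 = η ^ 2 * η ^ 4 := by ring
      _ ≤ 1 * η ^ 4 := mul_le_mul_of_nonneg_right hη2 hη4.le
      _ = η ^ 4 := one_mul _
  have hn1' : (1 : ℝ) ≤ n := by
    have h1 : η ^ 4 ≤ 1 := pow_le_one₀ hη.le hη1
    by_contra hcon
    push Not at hcon
    have h2 : (n : ℝ) * η ^ 4 ≤ 1 * 1 := mul_le_mul hcon.le h1 hη4.le (by norm_num)
    norm_num at h2 hn4
    linarith
  have hn1 : 1 ≤ n := by exact_mod_cast hn1'
  have hn0 : (0 : ℝ) < n := by linarith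
  obtain ⟨θ, hθ⟩ : ∃ θ, θ = ⌊η ^ 4 * (n : ℝ) ^ 2 / 64⌋₊ := ⟨_, rfl⟩
  have hθ1 : (θ : ℝ) ≤ η ^ 4 * (n : ℝ) ^ 2 / 64 := by
    rw [hθ]
    exact Nat.floor_le (by positivity)
  have hbig : (2 : ℝ) ≤ η ^ 4 * (n : ℝ) ^ 2 / 64 := by
    have h1 : (n : ℝ) * η ^ 4 ≤ (n : ℝ) * η ^ 4 * n :=
      le_mul_of_one_le_right (by positivity) hn1'
    have h2 : η ^ 4 * (n : ℝ) ^ 2 = (n : ℝ) * η ^ 4 * n := by ring
    rw [h2]
    norm_num at hn4
    linarith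
  have hθ2 : η ^ 4 * (n : ℝ) ^ 2 / 128 ≤ θ := by
    have h1 := Nat.lt_floor_add_one (η ^ 4 * (n : ℝ) ^ 2 / 64)
    rw [← hθ] at h1
    linarith
  have hθ0 : 1 ≤ θ := by
    have : (1 : ℝ) ≤ θ := by linarith
    exact_mod_cast this
  obtain ⟨t, ht⟩ : ∃ t, t = ⌈384 / η ^ 4⌉₊ + 2 := ⟨_, rfl⟩
  have ht1 : 384 / η ^ 4 ≤ (t : ℝ) - 2 := by
    have h1 := Nat.le_ceil (384 / η ^ 4)
    rw [ht]
    push_cast
    linarith
  have ht2 : (t : ℝ) ≤ 387 / η ^ 4 := by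
    have h1 := Nat.ceil_lt_add_one (show 0 ≤ 384 / η ^ 4 by positivity)
    have h2 : 1 ≤ 1 / η ^ 4 := by
      rw [le_div_iff₀ hη4, one_mul]
      exact pow_le_one₀ hη.le hη1
    have h3 : 387 / η ^ 4 = 384 / η ^ 4 + 3 * (1 / η ^ 4) := by ring
    rw [ht]
    push_cast
    linarith
  have ht0 : 1 ≤ t := by omega
  have ht0' : (0 : ℝ) < t := by exact_mod_cast ht0
  refine ⟨θ, t, hθ0, ht0, hn1, ?_, ht2, ?_, ?_⟩
  · rw [Fintype.card_prod, Fintype.card_fin]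
    have h1 : (3 * ((n : ℝ) * n) + 2 * θ) ≤ θ * t := by
      have h2 : η ^ 4 * (n : ℝ) ^ 2 / 128 * (384 / η ^ 4) ≤ (θ : ℝ) * ((t : ℝ) - 2) :=
        mul_le_mul hθ2 ht1 (by positivity) (Nat.cast_nonneg _)
      have h3 : η ^ 4 * (n : ℝ) ^ 2 / 128 * (384 / η ^ 4) = 3 * ((n : ℝ) * n) := by
        field_simp
        ring
      rw [h3] at h2
      linarith
    exact_mod_cast h1
  · rw [le_div_iff₀ (by positivity)]
    have h1 : 2 * (16 * (t : ℝ)) ≤ 2 * (16 * (387 / η ^ 4)) := by linarith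
    refine h1.trans ?_
    rw [← sub_nonneg]
    have h2 : η ^ 2 * (n : ℝ) - 2 * (16 * (387 / η ^ 4)) =
        ((n : ℝ) * η ^ 6 - 12384) / η ^ 4 := by
      field_simp
      ring
    rw [h2]
    refine div_nonneg ?_ hη4.le
    norm_num at hn6
    linarith
  · have h1 : (n : ℝ) ^ 2 * (2 * θ : ℕ) ≤ (n : ℝ) ^ 2 * (2 * (η ^ 4 * (n : ℝ) ^ 2 / 64)) := by
      push_cast
      refine mul_le_mul_of_nonneg_left ?_ (by positivity)
      linarith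
    have h2 : 64 * (n : ℝ) ^ 3 ≤ (n : ℝ) ^ 3 * ((n : ℝ) * η ^ 4) := by
      rw [mul_comm (64 : ℝ)]
      refine mul_le_mul_of_nonneg_left ?_ (by positivity)
      norm_num at hn4
      linarith
    nlinarith

variable {Γ : Type} [AddCommGroup Γ] [Fintype Γ] [DecidableEq Γ]

/-- Few mixtures have large value. -/
theorem few_mix {n : ℕ} (w : Fin n × Fin n → Γ) {η : ℝ} (hη : 0 < η) (hn1 : 1 ≤ n) {θ t : ℕ}
    (ht : 1 ≤ t)
    (hmean : (n : ℝ) ^ 2 * (2 * θ : ℕ) + 2 * (n : ℝ) ^ 3 ≤ (n : ℝ) ^ 4 * (η / 2) ^ 4)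
    (p : Fin n × Fin n → Fin t) (hp : ∀ j, (univ.filter (fun v => p v = j)).card ≤ 2 * θ) :
    ∃ B : Finset (Fin t → Fin n ⊕ Fin n → Γ),
      (∀ b, ¬ ValueAtMost (1 / (Fintype.card Γ : ℝ) + η) (mix p (zg w) b) → b ∈ B) ∧
        B.card * ⌊Real.exp (η ^ 2 * n / (16 * t))⌋₊ ≤ Fintype.card (Fin n ⊕ Fin n → Γ) ^ t := by
  classical
  have hκ : ∀ k, (univ.filter (fun e : Fin n × Fin n => p (e.1, e.2) = k)).card ≤ 2 * θ :=
    fun k => hp k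
  obtain ⟨E, hE'⟩ : ∃ E : (Co n t → Γ) ≃ (Fin t → Fin n ⊕ Fin n → Γ),
      ∀ b, E.symm b = fun c => b c.1 c.2 := ⟨Equiv.curry _ _ _, fun _ => rfl⟩
  refine ⟨(univ.filter (fun F : Co n t → Γ =>
    η * (n : ℝ) ^ 2 ≤ mex (fun u v => p (u, v)) (fun u v => w (u, v)) F)).map E.toEmbedding, fun b h1 => ?_, ?_⟩
  · rw [mem_map]
    refine ⟨E.symm b, ?_, E.apply_symm_apply b⟩
    rw [mem_filter]
    refine ⟨mem_univ _, ?_⟩
    unfold ValueAtMost at h1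
    push Not at h1
    obtain ⟨L, R', h2⟩ := h1
    rw [card_sat] at h2
    have h3 := exc_le_mex (fun u v => p (u, v)) (fun u v => w (u, v))
      (fun c : Co n t => b c.1 c.2) (L, R')
    rw [hE']
    nlinarith
  · rw [card_map]
    have h1 := few hn1 ht (fun u v => p (u, v)) (fun u v => w (u, v)) (2 * θ) hκ hη hmean
      (univ.filter (fun F : Co n t → Γ =>
        η * (n : ℝ) ^ 2 ≤ mex (fun u v => p (u, v)) (fun u v => w (u, v)) F))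
      (fun F hF => (mem_filter.1 hF).2)
    have h2 : (⌊Real.exp (η ^ 2 * n / (16 * t))⌋₊ : ℝ) ≤ Real.exp (η ^ 2 * n / (16 * t)) :=
      Nat.floor_le (Real.exp_pos _).le
    have h3 := (mul_le_mul_of_nonneg_left h2 (Nat.cast_nonneg _)).trans h1
    have h4 : Fintype.card (Co n t → Γ) = Fintype.card (Fin n ⊕ Fin n → Γ) ^ t := by
      rw [Fintype.card_congr E, Fintype.card_fun (α := Fin t), Fintype.card_fin]
    rw [h4] at h3
    exact_mod_cast h3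

end Pool.Agent.H16UG
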