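import Pool.Agent.H16UG.Mix

/-!
# Linear games of given optimum
-/

set_option autoImplicit false

open Finset

namespace Pool.Agent.H16UG

open Pool.Agent.U20.DN

variable {Γ : Type} [AddCommGroup Γ] [Fintype Γ] [DecidableEq Γ]

/-- The largest number of edges which can be satisfied in the linear game with the shifts `w`. -/
def num {n : ℕ} (w : Fin n × Fin n → Γ) : ℕ :=
  univ.sup fun s : (Fin n → Γ) × (Fin n → Γ) =>
    (univ.filter (fun e : Fin n × Fin n => s.1 e.1 + w e = s.2 e.2)).card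

theorem le_num {n : ℕ} (w : Fin n × Fin n → Γ) (s : (Fin n → Γ) × (Fin n → Γ)) :
    (univ.filter (fun e : Fin n × Fin n => s.1 e.1 + w e = s.2 e.2)).card ≤ num w :=
  le_sup (f := fun s : (Fin n → Γ) × (Fin n → Γ) =>
    (univ.filter (fun e : Fin n × Fin n => s.1 e.1 + w e = s.2 e.2)).card) (mem_univ s)

theorem num_zero {n : ℕ} : num (0 : Fin n × Fin n → Γ) = n * n := by
  refine le_antisymm (Finset.sup_le fun s _ => ?_) ?_
  · refine (card_le_univ _).trans (le_of_eq ?_)
    rw [Fintype.card_prod, Fintype.card_fin]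
  · have h1 := le_num (0 : Fin n × Fin n → Γ) (0, 0)
    have h2 : (univ.filter (fun e : Fin n × Fin n =>
        ((0, 0) : (Fin n → Γ) × (Fin n → Γ)).1 e.1 + (0 : Fin n × Fin n → Γ) e =
          ((0, 0) : (Fin n → Γ) × (Fin n → Γ)).2 e.2)) = univ := by
      rw [filter_eq_self]
      intro e _
      simp
    rw [h2, card_univ, Fintype.card_prod, Fintype.card_fin] at h1
    exact h1

theorem num_step {n : ℕ} (w w' : Fin n × Fin n → Γ) (e0 : Fin n × Fin n)
    (h : ∀ e, e ≠ e0 → w e = w' e) : num w ≤ num w' + 1 := by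
  refine Finset.sup_le fun s _ => ?_
  have h1 := le_num w' s
  have h2 : (univ.filter (fun e : Fin n × Fin n => s.1 e.1 + w e = s.2 e.2)) ⊆
      insert e0 (univ.filter (fun e : Fin n × Fin n => s.1 e.1 + w' e = s.2 e.2)) := by
    intro e he
    rw [mem_insert]
    by_cases he0 : e = e0
    · exact Or.inl he0
    · right
      rw [mem_filter] at he ⊢
      rw [← h e he0]
      exact he
  have h3 := card_le_card h2
  have h4 := card_insert_le e0
    (univ.filter (fun e : Fin n × Fin n => s.1 e.1 + w' e = s.2 e.2))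
  omega

theorem interpolate {n : ℕ} (w1 : Fin n × Fin n → Γ) (S : Finset (Fin n × Fin n)) :
    ∀ k : ℕ, num (fun e => if e ∈ S then w1 e else 0) ≤ k → k ≤ n * n →
      ∃ w : Fin n × Fin n → Γ, num w = k := by
  induction S using Finset.induction_on with
  | empty =>
    intro k h1 h2
    have h3 : (fun e : Fin n × Fin n => if e ∈ (∅ : Finset (Fin n × Fin n)) then w1 e else 0) =
        0 := by
      funext e
      simp
    rw [h3, num_zero] at h1
    exact ⟨0, by rw [num_zero]; omega⟩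
  | insert e0 S he0 ih =>
    intro k h1 h2
    rcases Nat.lt_or_ge k (num (fun e => if e ∈ S then w1 e else 0)) with h3 | h3
    · refine ⟨_, le_antisymm h1 ?_⟩
      have h4 := num_step (fun e => if e ∈ S then w1 e else 0)
        (fun e => if e ∈ insert e0 S then w1 e else 0) e0 (fun e he => by
          simp [mem_insert, he])
      omega
    · exact ih k h3 h2

theorem card_relabel {n : ℕ} (w : Fin n × Fin n → Γ) (a : Fin n ⊕ Fin n → Γ) (L R : Fin n → Γ) :
    Nat.card {e // Sat (zg w a) L R e} =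
      (univ.filter (fun e : Fin n × Fin n =>
        (L e.1 - a (Sum.inl e.1)) + w e = R e.2 - a (Sum.inr e.2))).card := by
  classical
  rw [Nat.card_eq_fintype_card, Fintype.card_subtype]
  congr 1
  ext e
  simp only [mem_filter, mem_univ, true_and]
  show L e.1 + (a (Sum.inr e.2) - a (Sum.inl e.1) + w e) = R e.2 ↔ _
  constructor
  · intro h
    rw [← h]
    abel
  · intro h
    have h1 : R e.2 = (R e.2 - a (Sum.inr e.2)) + a (Sum.inr e.2) := by abel
    rw [h1, ← h]
    abel

theorem optimum_zg {n : ℕ} (w : Fin n × Fin n → Γ) (a : Fin n ⊕ Fin n → Γ) :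
    Optimum (num w) (zg w a) := by
  constructor
  · obtain ⟨s, -, hs⟩ := exists_mem_eq_sup (univ : Finset ((Fin n → Γ) × (Fin n → Γ)))
      ⟨(0, 0), mem_univ _⟩ (fun s : (Fin n → Γ) × (Fin n → Γ) =>
        (univ.filter (fun e : Fin n × Fin n => s.1 e.1 + w e = s.2 e.2)).card)
    refine ⟨fun u => s.1 u + a (Sum.inl u), fun v => s.2 v + a (Sum.inr v), ?_⟩
    rw [card_relabel]
    simp only [add_sub_cancel_right]
    exact hs.symm
  · intro L R
    rw [card_relabel]
    exact le_num w (fun u => L u - a (Sum.inl u), fun v => R v - a (Sum.inr v))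

/-- There are games of small value. -/
theorem exists_low {n : ℕ} {η : ℝ} (hη : 0 < η) (hη1 : η ≤ 1) (hn : 2 ^ 14 / η ^ 6 ≤ (n : ℝ)) :
    ∃ w : Fin n × Fin n → Γ,
      (num w : ℝ) ≤ (1 / (Fintype.card Γ : ℝ) + η) * ((n : ℝ) * n) := by
  classical
  obtain ⟨θ, t, hθ0, ht0, hn1, hE, ht2, hy2, hmean⟩ := params hη hη1 hn
  obtain ⟨-, p, hp, -⟩ := exists_partition hθ0 hE [] List.Pairwise.nil
    (fun P hP => absurd hP (by simp)) (by simp)
  obtain ⟨B, hB1, hB2⟩ := few_mix (Γ := Γ) 0 hη hn1 ht0 hmean p hp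
  have hN : 2 ≤ ⌊Real.exp (η ^ 2 * n / (16 * t))⌋₊ := by
    have h1 := exp_le_floor hy2
    have h2 := Real.add_one_le_exp (η ^ 2 * n / (16 * t) / 2)
    have h3 : (2 : ℝ) ≤ (⌊Real.exp (η ^ 2 * n / (16 * t))⌋₊ : ℝ) := by linarith
    exact_mod_cast h3
  have hU : 0 < Fintype.card (Fin n ⊕ Fin n → Γ) := Fintype.card_pos
  obtain ⟨b, hb⟩ : ∃ b, b ∉ B := by
    by_contra hcon
    push Not at hcon
    have h1 : B = univ := by
      ext b
      simp [hcon b]
    rw [h1, card_univ, Fintype.card_fun, Fintype.card_fin] at hB2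
    have h2 := Nat.pow_pos hU (n := t)
    have h3 := Nat.mul_le_mul_left (Fintype.card (Fin n ⊕ Fin n → Γ) ^ t) hN
    omega
  have hb2 : ValueAtMost (1 / (Fintype.card Γ : ℝ) + η) (mix p (zg 0) b) := by
    by_contra hcon
    exact hb (hB1 b hcon)
  refine ⟨fun e => b (p e) (Sum.inr e.2) - b (p e) (Sum.inl e.1), ?_⟩
  obtain ⟨⟨L, R, h1⟩, -⟩ := optimum_zg
    (fun e : Fin n × Fin n => b (p e) (Sum.inr e.2) - b (p e) (Sum.inl e.1)) 0
  rw [← h1]
  have h2 : (zg (fun e : Fin n × Fin n => b (p e) (Sum.inr e.2) - b (p e) (Sum.inl e.1)) 0 :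
      Fin n × Fin n → Equiv.Perm Γ) = mix p (zg 0) b := by
    funext e
    unfold mix zg
    congr 1
    simp
  rw [h2]
  exact hb2 L R

/-- Linear games of every optimum between `(1 / q + η) n ^ 2` and `n ^ 2`. -/
theorem exists_base {n : ℕ} {η : ℝ} (hη : 0 < η) (hη1 : η ≤ 1) (hn : 2 ^ 14 / η ^ 6 ≤ (n : ℝ))
    {k : ℕ} (hk : (1 / (Fintype.card Γ : ℝ) + η) * ((n : ℝ) * n) ≤ k) (hk2 : k ≤ n ^ 2) :
    ∃ w : Fin n × Fin n → Γ, num w = k := by
  obtain ⟨w, hw⟩ := exists_low (Γ := Γ) hη hη1 hn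
  have h1 : num w ≤ k := by exact_mod_cast hw.trans hk
  refine interpolate w univ k ?_ (by rwa [sq] at hk2)
  simpa using h1

end Pool.Agent.H16UG
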