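import Pool.Agent.H16UG.Opt
import Pool.Agent.TH700.PA.Density
import Pool.Agent.TH700.PA.Count

/-!
# Read-once tensor networks and unique games
-/

set_option autoImplicit false

open Finset

namespace Pool.Agent.H16UG

open Pool.Agent.TH700.PA (mixp Net rand_density exists_product)

variable {Γ : Type} [AddCommGroup Γ] [Fintype Γ] [DecidableEq Γ]

/-- From the bound for tuples to the bond dimension. -/
theorem bond_bound {n t : ℕ} {η : ℝ} (hη : 0 < η) (hη1 : η ≤ 1) (ht : 1 ≤ t)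
    (ht2 : (t : ℝ) ≤ 387 / η ^ 4) (hn : 2 ^ 33 / η ^ 14 ≤ (n : ℝ))
    (hy2 : 2 ≤ η ^ 2 * n / (16 * t)) {μ w : ℕ}
    (h : ⌊Real.exp (η ^ 2 * n / (16 * t))⌋₊ ≤ (2 ^ (μ + 1) * (t * w ^ 3)) ^ (t + 1)) :
    Real.exp (η ^ 10 * n / 2 ^ 25) ≤ 2 ^ μ * (w : ℝ) := by
  have ht0 : (0 : ℝ) < t := by exact_mod_cast ht
  obtain ⟨y, hy⟩ : ∃ y, y = η ^ 2 * n / (16 * t) := ⟨_, rfl⟩
  rw [← hy] at h hy2
  obtain ⟨s, hs⟩ : ∃ s : ℝ, s = 2 ^ μ * (w : ℝ) := ⟨_, rfl⟩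
  rw [← hs]
  have hs0 : 0 ≤ s := by rw [hs]; positivity
  -- `t ^ 2 (t + 1)` is small
  have ht3 : 8 * (t : ℝ) ^ 2 ≤ y := by
    have h1 : (t : ℝ) ^ 3 ≤ (387 / η ^ 4) ^ 3 := pow_le_pow_left₀ ht0.le ht2 3
    have h2 : (387 / η ^ 4) ^ 3 = 57960603 / η ^ 12 := by
      rw [div_pow, ← pow_mul]
      norm_num
    have h3 : 2 ^ 33 / η ^ 12 ≤ η ^ 2 * n := by
      have h4 := mul_le_mul_of_nonneg_left hn (show 0 ≤ η ^ 2 by positivity)
      have h5 : η ^ 2 * (2 ^ 33 / η ^ 14) = 2 ^ 33 / η ^ 12 := by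
        field_simp
      rwa [h5] at h4
    rw [hy, le_div_iff₀ (by positivity)]
    have h6 : 8 * (t : ℝ) ^ 2 * (16 * t) = 128 * t ^ 3 := by ring
    rw [h6]
    refine le_trans ?_ h3
    rw [h2] at h1
    calc 128 * (t : ℝ) ^ 3 ≤ 128 * (57960603 / η ^ 12) := by linarith
      _ ≤ 2 ^ 33 / η ^ 12 := by
        rw [← mul_div_assoc]
        refine div_le_div_of_nonneg_right (by norm_num) (by positivity)
  have h1 : Real.exp (y / 2) ≤ (2 * t * s ^ 3) ^ (t + 1) := by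
    refine (exp_le_floor hy2).trans ?_
    have h2 : (⌊Real.exp y⌋₊ : ℝ) ≤ (2 ^ (μ + 1) * (t * (w : ℝ) ^ 3)) ^ (t + 1) := by
      exact_mod_cast h
    refine h2.trans (pow_le_pow_left₀ (by positivity) ?_ _)
    rw [hs]
    have h3 : (2 : ℝ) ^ μ ≤ (2 ^ μ) ^ 3 := by
      refine le_self_pow₀ (one_le_pow₀ (by norm_num)) (by norm_num)
    calc (2 : ℝ) ^ (μ + 1) * (t * (w : ℝ) ^ 3) = 2 * t * (2 ^ μ * (w : ℝ) ^ 3) := by
          rw [pow_succ]; ring
      _ ≤ 2 * t * ((2 ^ μ) ^ 3 * (w : ℝ) ^ 3) := by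
          refine mul_le_mul_of_nonneg_left ?_ (by positivity)
          exact mul_le_mul_of_nonneg_right h3 (by positivity)
      _ = _ := by rw [mul_pow (2 ^ μ : ℝ)]
  have h2 : (2 * (t : ℝ)) ^ (t + 1) ≤ Real.exp (y / 4) := by
    have h3 : 2 * (t : ℝ) ≤ Real.exp t := by
      have h4 := Real.quadratic_le_exp_of_nonneg ht0.le
      nlinarith [sq_nonneg ((t : ℝ) - 1)]
    calc (2 * (t : ℝ)) ^ (t + 1) ≤ Real.exp t ^ (t + 1) :=
          pow_le_pow_left₀ (by positivity) h3 _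
      _ = Real.exp ((t + 1) * t) := by
          rw [← Real.exp_nat_mul]
          push_cast
          rfl
      _ ≤ _ := by
          rw [Real.exp_le_exp]
          have h4 : (1 : ℝ) ≤ t := by exact_mod_cast ht
          nlinarith
  have h3 : Real.exp (y / 4) ≤ s ^ (3 * (t + 1)) := by
    have h4 : Real.exp (y / 2) ≤ Real.exp (y / 4) * s ^ (3 * (t + 1)) := by
      refine h1.trans ?_
      rw [mul_pow, ← pow_mul]
      exact mul_le_mul_of_nonneg_right h2 (by positivity)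
    have h5 : Real.exp (y / 2) = Real.exp (y / 4) * Real.exp (y / 4) := by
      rw [← Real.exp_add]
      congr 1
      ring
    rw [h5] at h4
    exact le_of_mul_le_mul_left h4 (Real.exp_pos _)
  have h4 : Real.exp (η ^ 10 * n / 2 ^ 25) ^ (3 * (t + 1)) ≤ Real.exp (y / 4) := by
    rw [← Real.exp_nat_mul, Real.exp_le_exp, hy]
    push_cast
    have h5 : (t : ℝ) + 1 ≤ 388 / η ^ 4 := by
      have h6 : 1 ≤ 1 / η ^ 4 := by
        rw [le_div_iff₀ (by positivity), one_mul]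
        exact pow_le_one₀ hη.le hη1
      have h7 : 388 / η ^ 4 = 387 / η ^ 4 + 1 / η ^ 4 := by ring
      linarith
    have h6 : (t : ℝ) * (t + 1) ≤ 387 / η ^ 4 * (388 / η ^ 4) :=
      mul_le_mul ht2 h5 (by positivity) (by positivity)
    have h7 : η ^ 10 * ((t : ℝ) * (t + 1)) * 192 ≤ 2 ^ 25 * η ^ 2 := by
      have h8 : η ^ 10 * (387 / η ^ 4 * (388 / η ^ 4)) * 192 = 28829952 * η ^ 2 := by
        field_simp
        ring
      have h9 : η ^ 10 * ((t : ℝ) * (t + 1)) * 192 ≤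
          η ^ 10 * (387 / η ^ 4 * (388 / η ^ 4)) * 192 := by
        refine mul_le_mul_of_nonneg_right ?_ (by norm_num)
        exact mul_le_mul_of_nonneg_left h6 (by positivity)
      rw [h8] at h9
      refine h9.trans ?_
      exact mul_le_mul_of_nonneg_right (by norm_num) (by positivity)
    have h8 : 3 * ((t : ℝ) + 1) * (η ^ 10 * n / 2 ^ 25) =
        (η ^ 10 * ((t : ℝ) * (t + 1)) * 192) * (n / (2 ^ 25 * (64 * t))) := by
      field_simp
      ring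
    have h9 : η ^ 2 * n / (16 * t) / 4 = (2 ^ 25 * η ^ 2) * (n / (2 ^ 25 * (64 * t))) := by
      field_simp
      ring
    rw [h8, h9]
    exact mul_le_mul_of_nonneg_right h7 (by positivity)
  have h5 := h4.trans h3
  by_contra hcon
  push Not at hcon
  have h6 := pow_lt_pow_left₀ hcon hs0 (n := 3 * (t + 1)) (by positivity)
  linarith

theorem n_large {n : ℕ} {η : ℝ} (hη : 0 < η) (hη1 : η ≤ 1) (hn : 2 ^ 33 / η ^ 14 ≤ (n : ℝ)) :
    2 ^ 14 / η ^ 6 ≤ (n : ℝ) := by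
  refine le_trans ?_ hn
  have h1 : η ^ 14 ≤ η ^ 6 := pow_le_pow_of_le_one hη.le hη1 (by norm_num)
  exact div_le_div₀ (by norm_num) (by norm_num) (by positivity) h1

/-- The lower bound for tensor networks. -/
theorem lower_net {n : ℕ} {η : ℝ} (hη : 0 < η) (hη1 : η ≤ 1) (hn : 2 ^ 33 / η ^ 14 ≤ (n : ℝ))
    {k : ℕ} (hk : (1 / (Fintype.card Γ : ℝ) + η) * ((n : ℝ) * n) ≤ k) (hk2 : k ≤ n ^ 2)
    (μ : ℕ) (R : Type) [Fintype R] [Nonempty R] (K W : R → Type) [∀ ρ, Field (K ρ)]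
    [∀ ρ, Fintype (W ρ)] (T : ∀ ρ, Net (K ρ) (Fin n × Fin n) (Equiv.Perm Γ) (W ρ))
    (c : ∀ ρ, W ρ → K ρ) (h1 : ∀ ρ e, (T ρ).reads e ≤ 1)
    (hno : ∀ ρ x, Linear x → ValueAtMost (1 / (Fintype.card Γ : ℝ) + η) x →
      (T ρ).value (c ρ) x = 0)
    (hyes : ∀ x, Linear x → Optimum k x →
      Nat.card R ≤ 2 ^ μ * Nat.card {ρ // (T ρ).value (c ρ) x ≠ 0}) :
    ∃ ρ, Real.exp (η ^ 10 * n / 2 ^ 25) ≤ 2 ^ μ * (Fintype.card (W ρ) : ℝ) := by
  classical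
  obtain ⟨w, hw⟩ := exists_base (Γ := Γ) hη hη1 (n_large hη hη1 hn) hk hk2
  obtain ⟨θ, t, hθ0, ht0, hn1, hE, ht2, hy2, hmean⟩ := params hη hη1 (n_large hη hη1 hn)
  obtain ⟨ρ, hρ, -⟩ := rand_density μ R K W T c h1 (θ := θ) (t := t) hθ0 ht0 (by omega)
    (U := Fin n ⊕ Fin n → Γ) (zg w : (Fin n ⊕ Fin n → Γ) → Fin n × Fin n → Equiv.Perm Γ)
    univ (η := 0) (by simp)
    (fun A _ => hyes _ (zg_linear w (fun _ => ()) (fun _ => A)) (hw ▸ optimum_zg w A))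
    (N := ⌊Real.exp (η ^ 2 * n / (16 * t))⌋₊) (by
      intro ρ p hp
      obtain ⟨B, hB1, hB2⟩ := few_mix (Γ := Γ) w hη hn1 ht0 hmean p hp
      refine ⟨B, fun b hb => hB1 b fun hv => hb (hno ρ _ (zg_linear w p b) hv), hB2⟩)
  exact ⟨ρ, bond_bound hη hη1 ht0 ht2 hn hy2 (by rwa [add_zero] at hρ)⟩

omit [AddCommGroup Γ] [DecidableEq Γ] in
/-- The trivial network. -/
theorem upper_net {n : ℕ} (hn : 1 ≤ n) :
    ∃ (W : Type) (_ : Fintype W) (T : Net ℚ (Fin n × Fin n) (Equiv.Perm Γ) W) (c : W → ℚ),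
      Fintype.card W = Fintype.card Γ ^ (2 * n) ∧
      T.Linear ∧ (∀ e, T.reads e = 1) ∧ T.size = 2 * n ^ 2 - 1 ∧
        ∀ x, T.value c x ≠ 0 ↔ ValueOne x := by
  classical
  have : Nonempty (Fin n) := ⟨⟨0, hn⟩⟩
  obtain ⟨T, h1, h2, h3, h4⟩ := exists_product (K := ℚ)
    (fun (e : Fin n × Fin n) (π : Equiv.Perm Γ) (s : (Fin n → Γ) × (Fin n → Γ)) =>
      if π (s.1 e.1) = s.2 e.2 then (1 : ℚ) else 0)
  refine ⟨(Fin n → Γ) × (Fin n → Γ), inferInstance, T, fun _ => 1, ?_, h1, h2, ?_, fun x => ?_⟩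
  · rw [Fintype.card_prod, Fintype.card_fun, Fintype.card_fin, two_mul, pow_add]
  · rw [h3, Fintype.card_prod, Fintype.card_fin, sq]
  · have h5 : ∀ s : (Fin n → Γ) × (Fin n → Γ), 0 ≤ T.eval x s ∧
        (T.eval x s ≠ 0 ↔ ∀ e, Sat x s.1 s.2 e) := by
      intro s
      rw [h4]
      refine ⟨prod_nonneg fun e _ => by split_ifs <;> norm_num, ?_⟩
      rw [prod_ne_zero_iff]
      constructor
      · intro h e
        by_contra hcon
        exact h e (mem_univ _) (if_neg hcon)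
      · intro h e _
        have h6 : x e (s.1 e.1) = s.2 e.2 := h e
        rw [if_pos h6]
        exact one_ne_zero
    unfold Net.value
    rw [Ne, sum_eq_zero_iff_of_nonneg (fun k _ => by
      rw [one_mul]
      exact (h5 k).1)]
    push Not
    constructor
    · rintro ⟨s, -, hs⟩
      rw [one_mul] at hs
      exact ⟨s.1, s.2, (h5 s).2.1 hs⟩
    · rintro ⟨L, R, h⟩
      refine ⟨(L, R), mem_univ _, ?_⟩
      rw [one_mul]
      exact (h5 (L, R)).2.2 h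

end Pool.Agent.H16UG
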